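import Pool.Agent.Helper97.UDP.Par
import Pool.Agent.Helper44.Flip.Red

/-!
# The arithmetic of the reduction in polynomial time
-/

set_option autoImplicit false

namespace Pool.Agent.Helper97.UDP

open Pool.Agent.Helper20.Flip Pool.Agent.Helper96

namespace RedE

open Pool.Agent.Helper20.Flip.RedAux

/-! ### the approximation of the square root of three -/

/-- solutions of the Pell equation `(t + y) ^ 2 = 3 y ^ 2 + 1` -/
def pell : ℕ → ℕ × ℕ
  | 0 => (1, 1)
  | n + 1 => ((pell n).1 + 2 * (pell n).2, (pell n).1 + 3 * (pell n).2)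

theorem pell_eq (n : ℕ) : ((pell n).1 + (pell n).2) ^ 2 = 3 * (pell n).2 ^ 2 + 1 := by
  induction n with
  | zero => rfl
  | succ n ih =>
    rw [pell]
    simp only
    nlinarith [ih]

theorem pell_le (n : ℕ) : 3 ^ n ≤ (pell n).2 := by
  induction n with
  | zero => exact le_rfl
  | succ n ih =>
    rw [pell, pow_succ]
    simp only
    omega

/-- one step -/
def stepB (p : List Bool × List Bool) : List Bool × List Bool :=
  (addB p.1 (false :: p.2), addB (addB p.1 (false :: p.2)) p.2)

/-- the binary digits -/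
def pellB (n : ℕ) : List Bool × List Bool := stepB^[n] ([true], [true])

theorem pellB_succ (n : ℕ) : pellB (n + 1) = stepB (pellB n) := by
  unfold pellB
  rw [Function.iterate_succ_apply']

theorem val_pellB (n : ℕ) : val (pellB n).1 = (pell n).1 ∧ val (pellB n).2 = (pell n).2 := by
  induction n with
  | zero => exact ⟨rfl, rfl⟩
  | succ n ih =>
    rw [pellB_succ, stepB, pell]
    simp only [val_addB, val, ih.1, ih.2, Bool.false_eq_true, if_false]
    constructor <;> ring

theorem length_pellB (n : ℕ) : (pellB n).1.length ≤ 3 * n + 1 ∧ (pellB n).2.length ≤ 3 * n + 1 := by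
  induction n with
  | zero => exact ⟨le_rfl, le_rfl⟩
  | succ n ih =>
    rw [pellB_succ, stepB]
    simp only [length_addB, List.length_cons]
    omega

section
variable {α : Type} [Enc α]

@[fun_prop]
theorem poly_pellB {f : α → ℕ} (hf : Poly f) : Poly (fun a => pellB (f a)) := by
  obtain ⟨B, hB, hm, hs⟩ := hf.szPB
  refine Poly.iterate (n := f) (g := fun _ => (([true], [true]) : List Bool × List Bool))
    (h := fun _ x => stepB x) hf (Helper96.Poly.const _) (by unfold stepB; fun_prop)
    (fun n => 24 * B n + 20) (by fun_prop) ?_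
  intro a i hi
  have h1 := hs a
  rw [sz_nat] at h1
  have h2 := length_pellB i
  have h3 := sz_bits_le (pellB i).1
  have h4 := sz_bits_le (pellB i).2
  have h5 : sz (pellB i) = sz (pellB i).1 + sz (pellB i).2 + 1 := sz_prod _ _
  have h6 : ((fun x => stepB x)^[i] (([true], [true]) : List Bool × List Bool)) = pellB i := rfl
  rw [h6, h5]
  omega

end

theorem pell_r (n : ℕ) : √3 ≤ 1 + ((pell n).1 : ℝ) / ((pell n).2 : ℝ) ∧
    1 + ((pell n).1 : ℝ) / ((pell n).2 : ℝ) - √3 ≤ 1 / (3 * 9 ^ n) := by
  have hy0 : (3 : ℝ) ^ n ≤ ((pell n).2 : ℝ) := by exact_mod_cast pell_le n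
  have h3n : (0 : ℝ) < 3 ^ n := by positivity
  have hy : (0 : ℝ) < ((pell n).2 : ℝ) := by linarith
  have he : (((pell n).1 : ℝ) + ((pell n).2 : ℝ)) ^ 2 = 3 * ((pell n).2 : ℝ) ^ 2 + 1 := by
    exact_mod_cast pell_eq n
  set t : ℝ := ((pell n).1 : ℝ) with ht
  set y : ℝ := ((pell n).2 : ℝ) with hyd
  have ht0 : 0 ≤ t := by positivity
  set r : ℝ := 1 + t / y with hr
  have hr0 : 0 < r := by positivity
  have hr2 : r ^ 2 = 3 + 1 / y ^ 2 := by
    have : r = (t + y) / y := by rw [hr]; field_simp; ring
    rw [this, div_pow, he]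
    field_simp
  have hs3 : (√3 : ℝ) ^ 2 = 3 := Real.sq_sqrt (by norm_num)
  have hs0 : (0 : ℝ) ≤ √3 := Real.sqrt_nonneg _
  have hy2 : 0 < 1 / y ^ 2 := by positivity
  have h1 : √3 ≤ r := by
    by_contra hcon
    push Not at hcon
    nlinarith
  refine ⟨h1, ?_⟩
  have hs1 : (3 / 2 : ℝ) ≤ √3 := by
    apply Real.le_sqrt_of_sq_le
    norm_num
  have h2 : (r - √3) * 3 ≤ 1 / y ^ 2 := by
    have h3 : (r - √3) * (r + √3) = 1 / y ^ 2 := by
      have : (r - √3) * (r + √3) = r ^ 2 - (√3) ^ 2 := by ring
      rw [this, hs3, hr2]; ring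
    have h4 : (r - √3) * 3 ≤ (r - √3) * (r + √3) :=
      mul_le_mul_of_nonneg_left (by linarith) (by linarith)
    linarith
  have h5 : 1 / y ^ 2 ≤ 1 / 9 ^ n := by
    apply one_div_le_one_div_of_le (by positivity)
    have : (9 : ℝ) ^ n = (3 ^ n) ^ 2 := by rw [← pow_mul, mul_comm, pow_mul]; norm_num
    rw [this]
    exact pow_le_pow_left₀ h3n.le hy0 2
  have h6 : 1 / (3 * 9 ^ n : ℝ) = 1 / 9 ^ n / 3 := by
    field_simp
  rw [h6, le_div_iff₀ (by norm_num)]
  linarith

/-! ### the parameters -/

/-- the number of digits -/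
def kF (ws : List (List Bool)) : ℕ := (ws.flatMap fun a => a).length + ws.length

/-- the exponent of the scale -/
def eF (ws : List (List Bool)) : ℕ := 2 * kF ws + ws.length + 16

/-- numerator of `r - 1` -/
def tB (ws : List (List Bool)) : List Bool := (pellB (eF ws + 4)).1

/-- denominator of `r - 1` -/
def yB (ws : List (List Bool)) : List Bool := (pellB (eF ws + 4)).2

/-- abscissas -/
def absc (ws : List (List Bool)) (a b : ℕ) : RatCode :=
  (false, sumB (List.replicate a (tB ws) ++ List.replicate b (yB ws)),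
    sumB (List.replicate 140 (yB ws)))

/-- complement -/
def comp (k : ℕ) (w : List Bool) : List Bool :=
  (w ++ List.replicate (k - w.length) false).map (fun b => !b)

/-- the code of one -/
def oneC : RatCode := (false, [true], [true])

/-- the code of minus one -/
def monC : RatCode := (true, [true], [true])

/-- the code of five quarters -/
def fiveC : RatCode := (false, [true, false, true], [false, false, true])

/-- the code of `4 / 5 + τ` -/
def neckC (ws : List (List Bool)) : RatCode :=
  (false, addB (shl (kF ws + ws.length + 18) [true]) [true, false, true],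
    shl (kF ws + ws.length + 16) [true, false, true])

/-- the code of `2 + γ` -/
def tallC (ws : List (List Bool)) (w : List Bool) : RatCode :=
  (false, addB (shl (eF ws + 1) [true]) w, shl (eF ws) [true])

/-- the code of `16 / 7 - 4 γ` -/
def midC (ws : List (List Bool)) (w : List Bool) : RatCode :=
  (false, sumB (shl (kF ws + 2) (true :: false :: false ::
      List.replicate (kF ws + ws.length + 15) true) :: [false, false, true, true, true] ::
      List.replicate 28 (comp (kF ws) w)), shl (eF ws) [true, true, true])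

/-- codes of left end, right end and height -/
abbrev Trip := RatCode × RatCode × RatCode

/-- the steps of a gadget -/
def gad (ws : List (List Bool)) (j : ℕ) : List Trip :=
  [((if j = 0 then monC else absc ws (600 * j) (600 * j - 84)), absc ws (600 * j) (600 * j + 84),
      (if j = 0 then oneC else fiveC)),
    (absc ws (600 * j) (600 * j + 84), absc ws (600 * j) (600 * j + 98), neckC ws),
    (absc ws (600 * j) (600 * j + 98), absc ws (600 * j + 300) (600 * j + 195),
      tallC ws (ws.getD j [])),
    (absc ws (600 * j + 300) (600 * j + 195), absc ws (600 * j + 300) (600 * j + 405),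
      midC ws (ws.getD j [])),
    (absc ws (600 * j + 300) (600 * j + 405), absc ws (600 * j + 600) (600 * j + 502),
      tallC ws (ws.getD j [])),
    (absc ws (600 * j + 600) (600 * j + 502), absc ws (600 * j + 600) (600 * j + 516), neckC ws)]

/-- the last step -/
def fin (ws : List (List Bool)) : Trip :=
  (absc ws (600 * ws.length) (600 * ws.length - 84),
    absc ws (600 * ws.length) (600 * ws.length + 140), oneC)

/-- all steps -/
def steps (ws : List (List Bool)) : List Trip :=
  (List.range ws.length).flatMap (gad ws) ++ [fin ws]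

/-- the lower edge -/
def lowC (s : Trip) : List (RatCode × RatCode) :=
  [(s.1, (!s.2.2.1, s.2.2.2)), (s.2.1, (!s.2.2.1, s.2.2.2))]

/-- the upper edge -/
def upC (s : Trip) : List (RatCode × RatCode) := [(s.1, s.2.2), (s.2.1, s.2.2)]

/-- the reduction -/
def F (ws : List (List Bool)) : List (RatCode × RatCode) × List Bool :=
  ((steps ws).flatMap lowC ++ ((steps ws).flatMap upC).reverse,
    List.replicate (7 * ws.length + 1) true)

section
variable {α : Type} [Enc α]

@[fun_prop]
theorem poly_kF {f : α → List (List Bool)} (hf : Poly f) : Poly (fun a => kF (f a)) := by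
  unfold kF; fun_prop

@[fun_prop]
theorem poly_eF {f : α → List (List Bool)} (hf : Poly f) : Poly (fun a => eF (f a)) := by
  unfold eF; fun_prop

@[fun_prop]
theorem poly_tB {f : α → List (List Bool)} (hf : Poly f) : Poly (fun a => tB (f a)) := by
  unfold tB; fun_prop

@[fun_prop]
theorem poly_yB {f : α → List (List Bool)} (hf : Poly f) : Poly (fun a => yB (f a)) := by
  unfold yB; fun_prop

@[fun_prop]
theorem poly_absc {f : α → List (List Bool)} {u v : α → ℕ} (hf : Poly f) (hu : Poly u)
    (hv : Poly v) : Poly (fun a => absc (f a) (u a) (v a)) := by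
  unfold absc; fun_prop

@[fun_prop]
theorem poly_comp {k : α → ℕ} {f : α → List Bool} (hk : Poly k) (hf : Poly f) :
    Poly (fun a => comp (k a) (f a)) := by
  unfold comp; fun_prop

@[fun_prop]
theorem poly_neckC {f : α → List (List Bool)} (hf : Poly f) : Poly (fun a => neckC (f a)) := by
  unfold neckC; fun_prop

@[fun_prop]
theorem poly_tallC {f : α → List (List Bool)} {w : α → List Bool} (hf : Poly f) (hw : Poly w) :
    Poly (fun a => tallC (f a) (w a)) := by
  unfold tallC; fun_prop

@[fun_prop]
theorem poly_midC {f : α → List (List Bool)} {w : α → List Bool} (hf : Poly f) (hw : Poly w) :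
    Poly (fun a => midC (f a) (w a)) := by
  unfold midC; fun_prop

@[fun_prop]
theorem poly_gad {f : α → List (List Bool)} {j : α → ℕ} (hf : Poly f) (hj : Poly j) :
    Poly (fun a => gad (f a) (j a)) := by
  unfold gad; fun_prop

@[fun_prop]
theorem poly_fin {f : α → List (List Bool)} (hf : Poly f) : Poly (fun a => fin (f a)) := by
  unfold fin; fun_prop

@[fun_prop]
theorem poly_steps {f : α → List (List Bool)} (hf : Poly f) : Poly (fun a => steps (f a)) := by
  unfold steps; fun_prop

@[fun_prop]
theorem poly_lowC {f : α → Trip} (hf : Poly f) : Poly (fun a => lowC (f a)) := by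
  unfold lowC; fun_prop

@[fun_prop]
theorem poly_upC {f : α → Trip} (hf : Poly f) : Poly (fun a => upC (f a)) := by
  unfold upC; fun_prop

theorem poly_F : Poly F := by
  unfold F; fun_prop

end

/-! ### correctness -/

theorem val_map_not (x : List Bool) : val (x.map (fun b => !b)) + val x + 1 = 2 ^ x.length := by
  induction x with
  | nil => rfl
  | cons b x ih =>
    rw [List.map_cons, val, val, List.length_cons, pow_succ]
    cases b <;> simp <;> omega

theorem val_comp {k : ℕ} {w : List Bool} (h : w.length ≤ k) :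
    val (comp k w) + val w + 1 = 2 ^ k := by
  have h1 := val_map_not (w ++ List.replicate (k - w.length) false)
  rw [List.length_append, List.length_replicate, val_append, val_replicate, mul_zero, add_zero,
    show w.length + (k - w.length) = k by omega] at h1
  exact h1

theorem val_replicate_true (k : ℕ) : val (List.replicate k true) + 1 = 2 ^ k := by
  induction k with
  | zero => rfl
  | succ k ih =>
    rw [List.replicate_succ, val, pow_succ]
    simp only [if_true]
    omega

theorem sum_replicate_val (n : ℕ) (x : List Bool) :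
    ((List.replicate n x).map val).sum = n * val x := by
  rw [List.map_replicate, List.sum_replicate, smul_eq_mul]

/-- the ratio -/
noncomputable def rr (ws : List (List Bool)) : ℝ :=
  1 + ((pell (eF ws + 4)).1 : ℝ) / ((pell (eF ws + 4)).2 : ℝ)

theorem pell_pos (n : ℕ) : (0 : ℝ) < ((pell n).2 : ℝ) := by
  have := pell_le n
  have h : 0 < 3 ^ n := by positivity
  exact_mod_cast h.trans_le this

theorem ratVal_absc (ws : List (List Bool)) (a b : ℕ) :
    ratVal (absc ws a b) = (a * (rr ws - 1) + b) / 140 := by
  have hy := pell_pos (eF ws + 4)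
  have h1 := val_pellB (eF ws + 4)
  unfold absc ratVal tB yB rr
  simp only [val_sumB, List.map_append, List.sum_append, sum_replicate_val, h1.1, h1.2]
  push_cast
  simp only [one_mul]
  field_simp
  ring

theorem ratVal_oneC : ratVal oneC = 1 := by
  simp [ratVal, oneC, val]

theorem ratVal_monC : ratVal monC = -1 := by
  simp [ratVal, monC, val]

theorem ratVal_fiveC : ratVal fiveC = 5 / 4 := by
  simp [ratVal, fiveC, val]

theorem ratVal_neckC (ws : List (List Bool)) :
    ratVal (neckC ws) = 4 / 5 + 1 / 2 ^ (kF ws + ws.length + 16) := by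
  simp only [ratVal, neckC, val_addB, val_shl, val, Bool.false_eq_true, if_false, if_true]
  push_cast
  have h : (2 : ℝ) ^ (kF ws + ws.length + 18) = 2 ^ (kF ws + ws.length + 16) * 4 := by
    rw [show kF ws + ws.length + 18 = (kF ws + ws.length + 16) + 2 by ring, pow_add]
    norm_num
  rw [h]
  have h2 : (0 : ℝ) < 2 ^ (kF ws + ws.length + 16) := by positivity
  field_simp

theorem ratVal_tallC (ws : List (List Bool)) (w : List Bool) :
    ratVal (tallC ws w) = 2 + val w * (1 / 2 ^ eF ws) := by
  simp only [ratVal, tallC, val_addB, val_shl, val, Bool.false_eq_true, if_false, if_true]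
  push_cast
  rw [pow_succ]
  have h2 : (0 : ℝ) < 2 ^ eF ws := by positivity
  field_simp

theorem ratVal_midC (ws : List (List Bool)) (w : List Bool) (h : w.length ≤ kF ws) :
    ratVal (midC ws w) = 16 / 7 - 4 * (val w * (1 / 2 ^ eF ws)) := by
  have h1 := val_comp h
  have h2 := val_replicate_true (kF ws + ws.length + 15)
  have h1' : (val (comp (kF ws) w) : ℝ) = 2 ^ kF ws - val w - 1 := by
    have : ((val (comp (kF ws) w) + val w + 1 : ℕ) : ℝ) = ((2 ^ kF ws : ℕ) : ℝ) := by rw [h1]
    push_cast at this
    linarith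
  have h2' : (val (List.replicate (kF ws + ws.length + 15) true) : ℝ) =
      2 ^ (kF ws + ws.length + 15) - 1 := by
    have : ((val (List.replicate (kF ws + ws.length + 15) true) + 1 : ℕ) : ℝ) =
        ((2 ^ (kF ws + ws.length + 15) : ℕ) : ℝ) := by rw [h2]
    push_cast at this
    linarith
  simp only [ratVal, midC, val_sumB, List.map_cons, List.sum_cons, sum_replicate_val, val_shl, val,
    Bool.false_eq_true, if_false, if_true]
  push_cast
  rw [h1', h2']
  have hE : eF ws = kF ws + (kF ws + ws.length + 15) + 1 := by unfold eF; ring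
  have h3 : (2 : ℝ) ^ eF ws = 2 ^ kF ws * 2 ^ (kF ws + ws.length + 15) * 2 := by
    rw [hE, pow_succ, pow_add]
  have h4 : (2 : ℝ) ^ (kF ws + 2) = 2 ^ kF ws * 4 := by rw [pow_add]; norm_num
  rw [h3, h4]
  have h5 : (0 : ℝ) < 2 ^ kF ws := by positivity
  have h6 : (0 : ℝ) < 2 ^ (kF ws + ws.length + 15) := by positivity
  field_simp
  ring

theorem sum_val_real_lt (ws : List (List Bool)) :
    ∑ j ∈ Finset.range ws.length, (val (ws.getD j []) : ℝ) < 2 ^ kF ws := by
  have h1 := sum_val_lt ws
  have h2 := sum_getD ws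
  rw [← h2] at h1
  have : ((∑ j ∈ Finset.range ws.length, val (ws.getD j []) : ℕ) : ℝ) < ((2 ^ kF ws : ℕ) : ℝ) := by
    exact_mod_cast h1
  push_cast at this
  exact this

/-- the parameters -/
noncomputable def par (ws : List (List Bool)) (hws : ws ≠ []) : Par where
  m := ws.length
  w := fun j => val (ws.getD j [])
  η := 1 / 2 ^ eF ws
  τ := 1 / 2 ^ (kF ws + ws.length + 16)
  r := rr ws
  hm := List.length_pos_iff.mpr hws
  hη := by positivity
  hτ0 := by positivity
  hτ := by
    apply one_div_le_one_div_of_le (by positivity)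
    exact pow_le_pow_right₀ (by norm_num) (by omega)
  hw := by
    have h1 := sum_val_real_lt ws
    have hE : eF ws = kF ws + (kF ws + ws.length + 16) := by unfold eF; ring
    have h2 : (2 : ℝ) ^ eF ws = 2 ^ kF ws * 2 ^ (kF ws + ws.length + 16) := by
      rw [hE, pow_add]
    rw [h2, mul_one_div, div_le_iff₀ (by positivity)]
    have h5 : (0 : ℝ) < 2 ^ kF ws := by positivity
    have h6 : (0 : ℝ) < 2 ^ (kF ws + ws.length + 16) := by positivity
    have h7 : 2 * (1 / (2 : ℝ) ^ (kF ws + ws.length + 16)) *
        (2 ^ kF ws * 2 ^ (kF ws + ws.length + 16)) = 2 * 2 ^ kF ws := by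
      field_simp
    rw [h7]
    linarith
  hr := (pell_r _).1
  hr' := by
    have h1 := (pell_r (eF ws + 4)).2
    have h2 : (1 : ℝ) / (3 * 9 ^ (eF ws + 4)) ≤ 1 / 2 ^ 14 := by
      apply one_div_le_one_div_of_le (by positivity)
      have h3 : (9 : ℝ) ^ 5 ≤ 9 ^ (eF ws + 4) :=
        pow_le_pow_right₀ (by norm_num) (by unfold eF; omega)
      norm_num at h3 ⊢
      linarith
    unfold rr
    linarith
  herr := by
    have h1 := (pell_r (eF ws + 4)).2
    have h0 := (pell_r (eF ws + 4)).1
    have hrr : (1 : ℝ) + ((pell (eF ws + 4)).1 : ℝ) / ((pell (eF ws + 4)).2 : ℝ) = rr ws := rfl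
    rw [hrr] at h1 h0
    have hm : (ws.length : ℝ) ≤ 2 ^ ws.length := by
      exact_mod_cast (Nat.lt_two_pow_self (n := ws.length)).le
    have hm0 : (0 : ℝ) ≤ (ws.length : ℝ) := by positivity
    have he : (0 : ℝ) < 2 ^ eF ws := by positivity
    have hml : (2 : ℝ) ^ ws.length ≤ 2 ^ eF ws :=
      pow_le_pow_right₀ (by norm_num) (by unfold eF; omega)
    have h9 : (2 : ℝ) ^ eF ws * 2 ^ eF ws * 6561 ≤ 9 ^ (eF ws + 4) := by
      rw [pow_add, ← mul_pow]
      have : ((2 : ℝ) * 2) ^ eF ws ≤ 9 ^ eF ws := pow_le_pow_left₀ (by norm_num) (by norm_num) _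
      norm_num at this ⊢
      linarith
    have h2 : (ws.length : ℝ) * (rr ws - √3) ≤ 1 / 19683 * (1 / 2 ^ eF ws) := by
      calc (ws.length : ℝ) * (rr ws - √3) ≤ 2 ^ eF ws * (1 / (3 * 9 ^ (eF ws + 4))) :=
            mul_le_mul (hm.trans hml) h1 (by linarith) he.le
        _ ≤ 2 ^ eF ws * (1 / (3 * (2 ^ eF ws * 2 ^ eF ws * 6561))) := by
            apply mul_le_mul_of_nonneg_left _ he.le
            apply one_div_le_one_div_of_le (by positivity)
            linarith
        _ = 1 / 19683 * (1 / 2 ^ eF ws) := by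
            field_simp
            norm_num
    have h3 : (ws.length : ℝ) * (1 / 2 ^ (kF ws + ws.length + 16)) ^ 2 ≤
        1 / 65536 * (1 / 2 ^ eF ws) := by
      have h4 : ((2 : ℝ) ^ (kF ws + ws.length + 16)) ^ 2 = 2 ^ eF ws * 2 ^ ws.length * 65536 := by
        have hE : (kF ws + ws.length + 16) * 2 = eF ws + ws.length + 16 := by unfold eF; ring
        rw [← pow_mul, hE, pow_add, pow_add]
        norm_num
      rw [div_pow, h4, one_pow, mul_one_div, div_le_iff₀ (by positivity)]
      have h5 : 1 / 65536 * (1 / (2 : ℝ) ^ eF ws) * (2 ^ eF ws * 2 ^ ws.length * 65536) =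
          2 ^ ws.length := by
        field_simp
      rw [h5]
      exact hm
    have hs2 : (√3 : ℝ) ≤ 2 := by
      rw [Real.sqrt_le_left (by norm_num)]
      norm_num
    have hs0 : (0 : ℝ) ≤ √3 := Real.sqrt_nonneg _
    have h6 : (ws.length : ℝ) * (30 / 7 * (rr ws - √3) +
        1000 * (1 / 2 ^ (kF ws + ws.length + 16)) ^ 2) ≤ 1 / 8 * (1 / 2 ^ eF ws) := by
      have h7 : (0 : ℝ) < 1 / 2 ^ eF ws := by positivity
      calc (ws.length : ℝ) * (30 / 7 * (rr ws - √3) +
            1000 * (1 / 2 ^ (kF ws + ws.length + 16)) ^ 2) =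
            30 / 7 * ((ws.length : ℝ) * (rr ws - √3)) +
            1000 * ((ws.length : ℝ) * (1 / 2 ^ (kF ws + ws.length + 16)) ^ 2) := by ring
        _ ≤ 30 / 7 * (1 / 19683 * (1 / 2 ^ eF ws)) + 1000 * (1 / 65536 * (1 / 2 ^ eF ws)) := by
            linarith
        _ ≤ _ := by linarith
    have h7 : (0 : ℝ) < 1 / 2 ^ eF ws := by positivity
    have h8 : 0 ≤ 1 / 8 * (1 / (2 : ℝ) ^ eF ws) := by positivity
    calc √3 * ((ws.length : ℝ) * (30 / 7 * (rr ws - √3) +
          1000 * (1 / 2 ^ (kF ws + ws.length + 16)) ^ 2)) ≤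
          √3 * (1 / 8 * (1 / 2 ^ eF ws)) := mul_le_mul_of_nonneg_left h6 hs0
      _ ≤ 2 * (1 / 8 * (1 / 2 ^ eF ws)) := mul_le_mul_of_nonneg_right hs2 h8
      _ < 1 / 2 ^ eF ws / 2 := by linarith

/-! ### the vertices -/

theorem flatMap_range_six {β : Type} (f : ℕ → β) (m : ℕ) :
    (List.range m).flatMap (fun j => [f (6 * j), f (6 * j + 1), f (6 * j + 2), f (6 * j + 3),
      f (6 * j + 4), f (6 * j + 5)]) = (List.range (6 * m)).map f := by
  induction m with
  | zero => rfl
  | succ m ih =>
    rw [List.range_succ, List.flatMap_append, ih, show 6 * (m + 1) = 6 * m + 1 + 1 + 1 + 1 + 1 + 1 by ring,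
      List.range_succ, List.range_succ, List.range_succ, List.range_succ, List.range_succ,
      List.range_succ]
    simp

theorem flatMap_range_two {β : Type} (f g : ℕ → β) (K : ℕ) :
    (List.range K).flatMap (fun i => [f i, g i]) =
      (List.range (2 * K)).map (fun k => if k % 2 = 0 then f (k / 2) else g (k / 2)) := by
  induction K with
  | zero => rfl
  | succ K ih =>
    rw [List.range_succ, List.flatMap_append, ih, show 2 * (K + 1) = 2 * K + 1 + 1 by ring,
      List.range_succ, List.range_succ]
    simp [Nat.add_mod, show (2 * K + 1) / 2 = K by omega]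

/-- the values of the codes of a step -/
noncomputable def rv (s : Trip) : ℝ × ℝ × ℝ := (ratVal s.1, ratVal s.2.1, ratVal s.2.2)

theorem length_getD_le (ws : List (List Bool)) (j : ℕ) : (ws.getD j []).length ≤ kF ws := by
  by_cases h : j < ws.length
  · have h1 : ws.getD j [] ∈ ws := by
      rw [List.getD_eq_getElem _ _ h]
      exact List.getElem_mem _
    have h2 : ∀ (l : List (List Bool)) (a : List Bool), a ∈ l →
        a.length ≤ (l.flatMap fun a => a).length := by
      intro l
      induction l with
      | nil => intro a ha; simp at ha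
      | cons b l ih =>
        intro a ha
        rw [List.flatMap_cons, List.length_append]
        rcases List.mem_cons.1 ha with rfl | ha
        · omega
        · have := ih a ha
          omega
    have := h2 ws _ h1
    unfold kF
    omega
  · rw [List.getD_eq_default _ _ (by omega)]
    simp

theorem par_bx_zero (ws : List (List Bool)) (hws : ws ≠ []) : (par ws hws).bx 0 = -1 := by
  unfold Par.bx
  rw [if_pos rfl]

theorem map_rv_gad (ws : List (List Bool)) (hws : ws ≠ []) (j : ℕ) (hj : j < ws.length) :
    (gad ws j).map rv =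
      [((par ws hws).bx (6 * j), (par ws hws).bx (6 * j + 1), (par ws hws).ht (6 * j)),
       ((par ws hws).bx (6 * j + 1), (par ws hws).bx (6 * j + 1 + 1), (par ws hws).ht (6 * j + 1)),
       ((par ws hws).bx (6 * j + 2), (par ws hws).bx (6 * j + 2 + 1), (par ws hws).ht (6 * j + 2)),
       ((par ws hws).bx (6 * j + 3), (par ws hws).bx (6 * j + 3 + 1), (par ws hws).ht (6 * j + 3)),
       ((par ws hws).bx (6 * j + 4), (par ws hws).bx (6 * j + 4 + 1), (par ws hws).ht (6 * j + 4)),
       ((par ws hws).bx (6 * j + 5), (par ws hws).bx (6 * j + 5 + 1),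
        (par ws hws).ht (6 * j + 5))] := by
  have hm : (par ws hws).m = ws.length := rfl
  have hr : (par ws hws).r = rr ws := rfl
  have hτ : (par ws hws).τ = 1 / 2 ^ (kF ws + ws.length + 16) := rfl
  have hG : (par ws hws).G = 30 / 7 * rr ws := rfl
  have hγ : (par ws hws).γ j = val (ws.getD j []) * (1 / 2 ^ eF ws) := rfl
  have b0 : (par ws hws).bx (6 * j) = if j = 0 then -1 else (j : ℝ) * (30 / 7 * rr ws) - 3 / 5 := by
    unfold Par.bx
    rw [hm, hG]
    by_cases h : j = 0
    · rw [if_pos (by omega), if_pos h]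
    · rw [if_neg (by omega), if_neg (by omega), if_pos (by omega), if_neg h,
        show 6 * j / 6 = j by omega]
  have b1 : (par ws hws).bx (6 * j + 1) = (j : ℝ) * (30 / 7 * rr ws) + 3 / 5 := by
    unfold Par.bx
    rw [hm, hG, if_neg (by omega), if_neg (by omega), if_neg (by omega), if_pos (by omega),
      show (6 * j + 1) / 6 = j by omega]
  have b2 : (par ws hws).bx (6 * j + 2) = (j : ℝ) * (30 / 7 * rr ws) + 7 / 10 := by
    unfold Par.bx
    rw [hm, hG, if_neg (by omega), if_neg (by omega), if_neg (by omega), if_neg (by omega),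
      if_pos (by omega), show (6 * j + 2) / 6 = j by omega]
  have b3 : (par ws hws).bx (6 * j + 3) = (j : ℝ) * (30 / 7 * rr ws) + (15 / 7 * rr ws - 3 / 4) := by
    unfold Par.bx
    rw [hm, hG, hr, if_neg (by omega), if_neg (by omega), if_neg (by omega), if_neg (by omega),
      if_neg (by omega), if_pos (by omega), show (6 * j + 3) / 6 = j by omega]
  have b4 : (par ws hws).bx (6 * j + 4) = (j : ℝ) * (30 / 7 * rr ws) + (15 / 7 * rr ws + 3 / 4) := by
    unfold Par.bx
    rw [hm, hG, hr, if_neg (by omega), if_neg (by omega), if_neg (by omega), if_neg (by omega),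
      if_neg (by omega), if_neg (by omega), if_pos (by omega), show (6 * j + 4) / 6 = j by omega]
  have b5 : (par ws hws).bx (6 * j + 5) =
      (j : ℝ) * (30 / 7 * rr ws) + (30 / 7 * rr ws - 7 / 10) := by
    unfold Par.bx
    rw [hm, hG, hr, if_neg (by omega), if_neg (by omega), if_neg (by omega), if_neg (by omega),
      if_neg (by omega), if_neg (by omega), if_neg (by omega), show (6 * j + 5) / 6 = j by omega]
  have b6 : (par ws hws).bx (6 * j + 5 + 1) = ((j : ℝ) + 1) * (30 / 7 * rr ws) - 3 / 5 := by
    unfold Par.bx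
    rw [hm, hG, if_neg (by omega), if_neg (by omega), if_pos (by omega),
      show (6 * j + 5 + 1) / 6 = j + 1 by omega]
    push_cast
    ring
  have c0 : (par ws hws).ht (6 * j) = if j = 0 then 1 else 5 / 4 := by
    unfold Par.ht
    rw [hm, if_pos (by omega)]
    by_cases h : j = 0
    · rw [if_pos (by omega), if_pos h]
    · rw [if_neg (by omega), if_neg h]
  have c1 : (par ws hws).ht (6 * j + 1) = 4 / 5 + 1 / 2 ^ (kF ws + ws.length + 16) := by
    unfold Par.ht
    rw [hτ, if_neg (by omega), if_pos (by omega)]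
  have c2 : (par ws hws).ht (6 * j + 2) = 2 + val (ws.getD j []) * (1 / 2 ^ eF ws) := by
    unfold Par.ht
    rw [if_neg (by omega), if_neg (by omega), if_pos (by omega), show (6 * j + 2) / 6 = j by omega,
      hγ]
  have c3 : (par ws hws).ht (6 * j + 3) = 16 / 7 - 4 * (val (ws.getD j []) * (1 / 2 ^ eF ws)) := by
    unfold Par.ht
    rw [if_neg (by omega), if_neg (by omega), if_neg (by omega), if_pos (by omega),
      show (6 * j + 3) / 6 = j by omega, hγ]
  have c4 : (par ws hws).ht (6 * j + 4) = 2 + val (ws.getD j []) * (1 / 2 ^ eF ws) := by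
    unfold Par.ht
    rw [if_neg (by omega), if_neg (by omega), if_neg (by omega), if_neg (by omega),
      if_pos (by omega), show (6 * j + 4) / 6 = j by omega, hγ]
  have c5 : (par ws hws).ht (6 * j + 5) = 4 / 5 + 1 / 2 ^ (kF ws + ws.length + 16) := by
    unfold Par.ht
    rw [hτ, if_neg (by omega), if_neg (by omega), if_neg (by omega), if_neg (by omega),
      if_neg (by omega)]
  have hw := length_getD_le ws j
  have e0 : ratVal (if j = 0 then monC else absc ws (600 * j) (600 * j - 84)) =
      (par ws hws).bx (6 * j) := by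
    rw [b0]
    by_cases h : j = 0
    · rw [if_pos h, if_pos h, ratVal_monC]
    · rw [if_neg h, if_neg h, ratVal_absc, Nat.cast_sub (by omega)]
      push_cast
      ring
  have e0' : ratVal (if j = 0 then oneC else fiveC) = (par ws hws).ht (6 * j) := by
    rw [c0]
    by_cases h : j = 0
    · rw [if_pos h, if_pos h, ratVal_oneC]
    · rw [if_neg h, if_neg h, ratVal_fiveC]
  have e1 : ratVal (absc ws (600 * j) (600 * j + 84)) = (par ws hws).bx (6 * j + 1) := by
    rw [b1, ratVal_absc]; push_cast; ring
  have e2 : ratVal (absc ws (600 * j) (600 * j + 98)) = (par ws hws).bx (6 * j + 2) := by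
    rw [b2, ratVal_absc]; push_cast; ring
  have e3 : ratVal (absc ws (600 * j + 300) (600 * j + 195)) = (par ws hws).bx (6 * j + 3) := by
    rw [b3, ratVal_absc]; push_cast; ring
  have e4 : ratVal (absc ws (600 * j + 300) (600 * j + 405)) = (par ws hws).bx (6 * j + 4) := by
    rw [b4, ratVal_absc]; push_cast; ring
  have e5 : ratVal (absc ws (600 * j + 600) (600 * j + 502)) = (par ws hws).bx (6 * j + 5) := by
    rw [b5, ratVal_absc]; push_cast; ring
  have e6 : ratVal (absc ws (600 * j + 600) (600 * j + 516)) = (par ws hws).bx (6 * j + 5 + 1) := by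
    rw [b6, ratVal_absc]; push_cast; ring
  unfold gad
  simp only [List.map_cons, List.map_nil, rv, e0, e0', e1, e2, e3, e4, e5, e6, ratVal_neckC,
    ratVal_tallC, ratVal_midC ws _ hw, c1, c2, c3, c4, c5]

theorem rv_fin (ws : List (List Bool)) (hws : ws ≠ []) :
    rv (fin ws) = ((par ws hws).bx (6 * ws.length), (par ws hws).bx (6 * ws.length + 1),
      (par ws hws).ht (6 * ws.length)) := by
  have hm : (par ws hws).m = ws.length := rfl
  have hG : (par ws hws).G = 30 / 7 * rr ws := rfl
  have hl : 0 < ws.length := List.length_pos_iff.mpr hws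
  have b0 : (par ws hws).bx (6 * ws.length) = (ws.length : ℝ) * (30 / 7 * rr ws) - 3 / 5 := by
    unfold Par.bx
    rw [hm, hG, if_neg (by omega), if_neg (by omega), if_pos (by omega),
      show 6 * ws.length / 6 = ws.length by omega]
  have b1 : (par ws hws).bx (6 * ws.length + 1) = (ws.length : ℝ) * (30 / 7 * rr ws) + 1 := by
    unfold Par.bx
    rw [hm, hG, if_neg (by omega), if_pos rfl]
  have c0 : (par ws hws).ht (6 * ws.length) = 1 := by
    unfold Par.ht
    rw [hm, if_pos (by omega), if_pos (by omega)]
  rw [b0, b1, c0]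
  unfold fin rv
  simp only [ratVal_oneC, ratVal_absc]
  rw [Nat.cast_sub (by omega)]
  push_cast
  refine Prod.ext ?_ (Prod.ext ?_ rfl)
  · simp only; ring
  · simp only; ring

theorem map_rv_steps (ws : List (List Bool)) (hws : ws ≠ []) :
    (steps ws).map rv = (List.range (par ws hws).K).map (fun i =>
      ((par ws hws).bx i, (par ws hws).bx (i + 1), (par ws hws).ht i)) := by
  have hK : (par ws hws).K = 6 * ws.length + 1 := rfl
  rw [hK, List.range_succ, List.map_append, ← flatMap_range_six, steps, List.map_append,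
    List.map_flatMap]
  congr 1
  · refine List.flatMap_congr fun j hj => ?_
    exact map_rv_gad ws hws j (List.mem_range.1 hj)
  · rw [List.map_cons, List.map_nil, rv_fin ws hws, List.map_cons, List.map_nil]

theorem ratVal_neg (r : RatCode) : ratVal (!r.1, r.2) = -ratVal r := by
  unfold ratVal
  cases r.1 <;> simp

/-- the point with given codes of the coordinates -/
noncomputable def pt (q : RatCode × RatCode) : Pt := (ratVal q.1, ratVal q.2)

theorem half_aux (x h : ℕ → ℝ) (K : ℕ) :
    (List.range K).flatMap (fun i => [((x i, h i) : Pt), (x (i + 1), h i)]) =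
      (List.range (2 * K)).map (fun k => ((x ((k + 1) / 2), h (k / 2)) : Pt)) := by
  rw [flatMap_range_two (fun i => ((x i, h i) : Pt)) (fun i => (x (i + 1), h i))]
  apply List.map_congr_left
  intro k _
  by_cases hk : k % 2 = 0
  · rw [if_pos hk, show (k + 1) / 2 = k / 2 by omega]
  · rw [if_neg hk, show (k + 1) / 2 = k / 2 + 1 by omega]

theorem map_pt_low (ws : List (List Bool)) (hws : ws ≠ []) :
    ((steps ws).flatMap lowC).map pt = (List.range (2 * (par ws hws).K)).map
      (fun k => (((par ws hws).bx ((k + 1) / 2), -(par ws hws).ht (k / 2)) : Pt)) := by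
  rw [← half_aux (par ws hws).bx (fun i => -(par ws hws).ht i)]
  have h1 : ((steps ws).flatMap lowC).map pt =
      ((steps ws).map rv).flatMap (fun v => [((v.1, -v.2.2) : Pt), (v.2.1, -v.2.2)]) := by
    rw [List.map_flatMap, List.flatMap_map]
    refine List.flatMap_congr fun s _ => ?_
    simp only [lowC, List.map_cons, List.map_nil, pt, rv]
    have h2 : ratVal (!s.2.2.1, s.2.2.2) = -ratVal s.2.2 := ratVal_neg s.2.2
    rw [h2]
  rw [h1, map_rv_steps ws hws, List.flatMap_map]

theorem map_pt_up (ws : List (List Bool)) (hws : ws ≠ []) :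
    ((steps ws).flatMap upC).map pt = (List.range (2 * (par ws hws).K)).map
      (fun k => (((par ws hws).bx ((k + 1) / 2), (par ws hws).ht (k / 2)) : Pt)) := by
  rw [← half_aux (par ws hws).bx (fun i => (par ws hws).ht i)]
  have h1 : ((steps ws).flatMap upC).map pt =
      ((steps ws).map rv).flatMap (fun v => [((v.1, v.2.2) : Pt), (v.2.1, v.2.2)]) := by
    rw [List.map_flatMap, List.flatMap_map]
    refine List.flatMap_congr fun s _ => ?_
    simp only [upC, List.map_cons, List.map_nil, pt, rv]
  rw [h1, map_rv_steps ws hws, List.flatMap_map]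

theorem length_F (ws : List (List Bool)) (hws : ws ≠ []) :
    (F ws).1.length = 4 * (par ws hws).K := by
  have h1 := congrArg List.length (map_pt_low ws hws)
  have h2 := congrArg List.length (map_pt_up ws hws)
  simp only [List.length_map, List.length_range] at h1 h2
  unfold F
  simp only [List.length_append, List.length_reverse]
  omega

theorem getD_low {β : Type} (f g : ℕ → β) (N : ℕ) (d : β) (k : ℕ) (hk : k < N) :
    ((List.range N).map f ++ ((List.range N).map g).reverse).getD k d = f k := by
  rw [List.getD_append _ _ _ _ (by simpa using hk), List.getD_eq_getElem _ _ (by simpa using hk)]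
  simp

theorem getD_up {β : Type} (f g : ℕ → β) (N : ℕ) (d : β) (k : ℕ) (hk : k < N) :
    ((List.range N).map f ++ ((List.range N).map g).reverse).getD (2 * N - 1 - k) d = g k := by
  rw [List.getD_append_right _ _ _ _ (by simp; omega), List.getD_eq_getElem _ _ (by simp; omega)]
  simp only [List.getElem_reverse, List.length_map, List.length_range, List.getElem_map,
    List.getElem_range]
  congr 1
  omega

theorem stepVerts_F (ws : List (List Bool)) (hws : ws ≠ []) :
    StepVerts (par ws hws).K (par ws hws).bx (par ws hws).ht (polygon (F ws).1) := by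
  have hlen := length_F ws hws
  have hK : 0 < (par ws hws).K := by unfold Par.K; omega
  have hmap : (F ws).1.map pt = (List.range (2 * (par ws hws).K)).map
      (fun k => (((par ws hws).bx ((k + 1) / 2), -(par ws hws).ht (k / 2)) : Pt)) ++
      ((List.range (2 * (par ws hws).K)).map
      (fun k => (((par ws hws).bx ((k + 1) / 2), (par ws hws).ht (k / 2)) : Pt))).reverse := by
    unfold F
    simp only
    rw [List.map_append, List.map_reverse, map_pt_low ws hws, map_pt_up ws hws]
  have hval : ∀ k : ℕ, k < 4 * (par ws hws).K → polygon (F ws).1 (k : ZMod (F ws).1.length) =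
      ((F ws).1.map pt).getD k (0, 0) := by
    intro k hk
    unfold polygon
    rw [ZMod.val_natCast_of_lt (by omega)]
    rfl
  refine ⟨hlen, ?_, ?_⟩
  · intro k hk
    rw [hval k (by omega), hmap, getD_low _ _ _ _ _ hk]
  · intro k hk
    rw [hval _ (by omega), hmap,
      show 4 * (par ws hws).K - 1 - k = 2 * (2 * (par ws hws).K) - 1 - k by omega,
      getD_up _ _ _ _ _ hk]

theorem den_absc (ws : List (List Bool)) (a b : ℕ) : val (absc ws a b).2.2 ≠ 0 := by
  have h1 := val_pellB (eF ws + 4)
  have h2 := pell_le (eF ws + 4)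
  have h3 : 0 < 3 ^ (eF ws + 4) := by positivity
  simp only [absc, yB, val_sumB, sum_replicate_val, h1.2]
  omega

theorem den_shl (n : ℕ) (x : List Bool) (hx : val x ≠ 0) : val (shl n x) ≠ 0 := by
  rw [val_shl]
  have : (0 : ℕ) < 2 ^ n := by positivity
  exact Nat.mul_ne_zero this.ne' hx

theorem den_steps (ws : List (List Bool)) : ∀ s ∈ steps ws,
    val s.1.2.2 ≠ 0 ∧ val s.2.1.2.2 ≠ 0 ∧ val s.2.2.2.2 ≠ 0 := by
  intro s hs
  have hone : val oneC.2.2 ≠ 0 := by simp [oneC, val]
  have hneck : val (neckC ws).2.2 ≠ 0 := den_shl _ _ (by simp [val])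
  have htall : ∀ w, val (tallC ws w).2.2 ≠ 0 := fun w => den_shl _ _ (by simp [val])
  have hmid : ∀ w, val (midC ws w).2.2 ≠ 0 := fun w => den_shl _ _ (by simp [val])
  rw [steps, List.mem_append, List.mem_flatMap, List.mem_singleton] at hs
  rcases hs with ⟨j, _, hj⟩ | rfl
  · unfold gad at hj
    simp only [List.mem_cons, List.not_mem_nil, or_false] at hj
    rcases hj with rfl | rfl | rfl | rfl | rfl | rfl
    · refine ⟨?_, den_absc _ _ _, ?_⟩
      · simp only
        split_ifs
        · simp [monC, val]
        · exact den_absc _ _ _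
      · simp only
        split_ifs
        · exact hone
        · simp [fiveC, val]
    · exact ⟨den_absc _ _ _, den_absc _ _ _, hneck⟩
    · exact ⟨den_absc _ _ _, den_absc _ _ _, htall _⟩
    · exact ⟨den_absc _ _ _, den_absc _ _ _, hmid _⟩
    · exact ⟨den_absc _ _ _, den_absc _ _ _, htall _⟩
    · exact ⟨den_absc _ _ _, den_absc _ _ _, hneck⟩
  · exact ⟨den_absc _ _ _, den_absc _ _ _, hone⟩

end RedE

theorem exists_redE : ∃ F : List (List Bool) → List (RatCode × RatCode) × List Bool, Poly F ∧
    ∀ ws, ws ≠ [] → ∃ P : Par, P.m = ws.length ∧ (∀ j < ws.length, P.w j = val (ws.getD j [])) ∧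
      (F ws).2 = List.replicate (7 * ws.length + 1) true ∧
      (∀ q ∈ (F ws).1, val q.1.2.2 ≠ 0 ∧ val q.2.2.2 ≠ 0) ∧
      StepVerts P.K P.bx P.ht (polygon (F ws).1) := by
  refine ⟨RedE.F, RedE.poly_F, fun ws hws => ⟨RedE.par ws hws, rfl, fun _ _ => rfl, rfl, ?_,
    RedE.stepVerts_F ws hws⟩⟩
  intro q hq
  unfold RedE.F at hq
  simp only [List.mem_append, List.mem_reverse, List.mem_flatMap] at hq
  rcases hq with ⟨s, hs, hq⟩ | ⟨s, hs, hq⟩
  · have h1 := RedE.den_steps ws s hs
    unfold RedE.lowC at hq
    simp only [List.mem_cons, List.not_mem_nil, or_false] at hq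
    rcases hq with rfl | rfl
    · exact ⟨h1.1, h1.2.2⟩
    · exact ⟨h1.2.1, h1.2.2⟩
  · have h1 := RedE.den_steps ws s hs
    unfold RedE.upC at hq
    simp only [List.mem_cons, List.not_mem_nil, or_false] at hq
    rcases hq with rfl | rfl
    · exact ⟨h1.1, h1.2.2⟩
    · exact ⟨h1.2.1, h1.2.2⟩

end Pool.Agent.Helper97.UDP
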